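import Pool.Agent.H50.IZ.Dens
import Pool.Agent.H50.JA.Lim

/-! # Density: windows -/

open Complex Set Filter Topology
open Pool.Agent.H51.Becker

namespace Pool.Agent.H50.JA

open Pool.Agent.H50.IX (bt ph GG NQ pts norm_ph hasDerivAt_bt U_re U_low mem_disc)
open Pool.Agent.H50.IZ (Rad InW approx_W U_norm exists_prim0)

/-- `ξ` is a critical point of `W` in the sense of windows -/
def Win (W : ℂ → ℝ) (ξ : ℂ) : Prop :=
  (∃ c > 0, ∀ᶠ z in 𝓝[Metric.ball (0 : ℂ) 1] ξ, c ≤ (1 - ‖z‖ ^ 2) * W z) ∧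
  ∀ ε > 0, ∃ᶠ ζ in 𝓝[Metric.ball (0 : ℂ) 1] ξ, ∀ z ∈ Metric.ball (0 : ℂ) 1,
    ε * ‖1 - (starRingEnd ℂ) ζ * z‖ ^ 2 ≤ (1 - ‖z‖ ^ 2) * (1 - ‖ζ‖ ^ 2) →
      1 - ε ≤ (1 - ‖z‖ ^ 2) * W z

lemma Win.near {W : ℂ → ℝ} {ξ : ℂ} (h : Win W ξ) :
    ∃ c > 0, ∃ d > 0, ∀ z : ℂ, ‖z‖ < 1 → ‖ξ - z‖ < d → c ≤ (1 - ‖z‖ ^ 2) * W z := by
  obtain ⟨c, hc, h1⟩ := h.1
  rw [eventually_nhdsWithin_iff, Metric.eventually_nhds_iff] at h1
  obtain ⟨d, hd, h2⟩ := h1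
  refine ⟨c, hc, d, hd, fun z hz hzd => h2 ?_ (mem_ball_zero_iff.2 hz)⟩
  rw [dist_comm, dist_eq_norm]
  exact hzd

lemma Win.pt {W : ℂ → ℝ} {ξ : ℂ} (h : Win W ξ) {ε d : ℝ} (hε : 0 < ε) (hd : 0 < d) :
    ∃ ζ : ℂ, ‖ζ‖ < 1 ∧ ‖ξ - ζ‖ < d ∧ ∀ z : ℂ, ‖z‖ < 1 →
      ε * ‖1 - (starRingEnd ℂ) ζ * z‖ ^ 2 ≤ (1 - ‖z‖ ^ 2) * (1 - ‖ζ‖ ^ 2) →
      1 - ε ≤ (1 - ‖z‖ ^ 2) * W z := by
  have h1 : ∀ᶠ ζ in 𝓝[Metric.ball (0 : ℂ) 1] ξ, ζ ∈ Metric.ball (0 : ℂ) 1 := eventually_mem_nhdsWithin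
  have h2 : ∀ᶠ ζ in 𝓝[Metric.ball (0 : ℂ) 1] ξ, ζ ∈ Metric.ball ξ d :=
    mem_nhdsWithin_of_mem_nhds (Metric.ball_mem_nhds ξ hd)
  obtain ⟨ζ, h3, h4, h5⟩ := ((h.2 ε hε).and_eventually (h1.and h2)).exists
  rw [Metric.mem_ball, dist_comm, dist_eq_norm] at h5
  exact ⟨ζ, mem_ball_zero_iff.1 h4, h5, fun z hz => h3 z (mem_ball_zero_iff.2 hz)⟩

lemma window {η ζ z : ℂ} {ε R R' s : ℝ} (hη : ‖η‖ = 1) (hs : 0 < s) (hs1 : s < 1) (hR : 0 < R)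
    (hR' : 0 ≤ R') (hε : 0 ≤ ε) (hζ : ζ = ((1 - s : ℝ) : ℂ) * η) (hz : ‖z‖ < 1)
    (h1 : ‖1 - (starRingEnd ℂ) η * z‖ ≤ R' * s) (h2 : s / R ≤ 1 - ‖z‖)
    (h3 : ε * (R' + 1) ^ 2 ≤ 1 / R) :
    ε * ‖1 - (starRingEnd ℂ) ζ * z‖ ^ 2 ≤ (1 - ‖z‖ ^ 2) * (1 - ‖ζ‖ ^ 2) := by
  have e1 : 1 - (starRingEnd ℂ) ζ * z =
      (1 - (starRingEnd ℂ) η * z) + (s : ℂ) * ((starRingEnd ℂ) η * z) := by
    rw [hζ, map_mul, conj_ofReal]
    push_cast
    ring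
  have e2 : ‖(s : ℂ) * ((starRingEnd ℂ) η * z)‖ ≤ s := by
    rw [norm_mul, norm_mul, norm_real, Real.norm_eq_abs, abs_of_pos hs, RCLike.norm_conj, hη, one_mul]
    nlinarith
  have e3 : ‖1 - (starRingEnd ℂ) ζ * z‖ ≤ (R' + 1) * s := by
    rw [e1]
    refine (norm_add_le _ _).trans ?_
    linarith
  have e4 : ‖ζ‖ = 1 - s := by
    rw [hζ, norm_mul, hη, mul_one, norm_real, Real.norm_eq_abs, abs_of_pos (by linarith)]
  have e5 : s ≤ 1 - ‖ζ‖ ^ 2 := by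
    rw [e4]
    nlinarith
  have e6 : s / R ≤ 1 - ‖z‖ ^ 2 := by nlinarith [norm_nonneg z]
  have e7 : 0 ≤ s / R := by positivity
  calc ε * ‖1 - (starRingEnd ℂ) ζ * z‖ ^ 2 ≤ ε * ((R' + 1) * s) ^ 2 := by gcongr
    _ = (ε * (R' + 1) ^ 2) * s ^ 2 := by ring
    _ ≤ 1 / R * s ^ 2 := by gcongr
    _ = s / R * s := by ring
    _ ≤ (1 - ‖z‖ ^ 2) * (1 - ‖ζ‖ ^ 2) := mul_le_mul e6 e5 hs.le (e7.trans e6)

lemma deep {W : ℂ → ℝ} {w₀ : ℝ} (hW : Rad W w₀) {η ζ : ℂ} {ε R s : ℝ} (hη : ‖η‖ = 1) (hs : 0 < s)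
    (hs1 : s ≤ 1 / 2) (hR : 1 ≤ R) (hε : 0 ≤ ε) (hε1 : ε ≤ 1 / 2)
    (hζ : ζ = ((1 - s : ℝ) : ℂ) * η) (hε2 : ε * (R + 2) ^ 2 ≤ 1 / R)
    (hwin : ∀ z : ℂ, ‖z‖ < 1 →
      ε * ‖1 - (starRingEnd ℂ) ζ * z‖ ^ 2 ≤ (1 - ‖z‖ ^ 2) * (1 - ‖ζ‖ ^ 2) →
      1 - ε ≤ (1 - ‖z‖ ^ 2) * W z) {z : ℂ} (hz : ‖z‖ < 1)
    (h1 : ‖1 - (starRingEnd ℂ) η * z‖ ≤ R * s) (h2 : 1 - ‖z‖ < s / R) : R / (8 * s) ≤ W z := by
  have hR0 : 0 < R := by linarith
  have hsR : s / R ≤ s := div_le_self hs.le hR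
  have hsR0 : 0 < s / R := by positivity
  have hz0 : 0 < ‖z‖ := by linarith
  obtain ⟨ρ, hρ⟩ : ∃ ρ : ℝ, ρ = (1 - s / R) / ‖z‖ := ⟨_, rfl⟩
  have hρz : ρ * ‖z‖ = 1 - s / R := by rw [hρ, div_mul_cancel₀ _ hz0.ne']
  have hρ0 : 1 / 2 ≤ ρ := by
    rw [hρ, le_div_iff₀ hz0]
    linarith
  have hρ1 : ρ ≤ 1 := by
    rw [hρ, div_le_one hz0]
    linarith
  have hn : ‖(ρ : ℂ) * z‖ = 1 - s / R := by
    rw [norm_mul, norm_real, Real.norm_eq_abs, abs_of_pos (by linarith), hρz]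
  have hm := hW.mono z (mem_ball_zero_iff.2 hz) ρ ⟨by linarith, hρ1⟩
  have hU : ‖1 - (starRingEnd ℂ) η * ((ρ : ℂ) * z)‖ ≤ (R + 1) * s := by
    have e1 : 1 - (starRingEnd ℂ) η * ((ρ : ℂ) * z) =
        (1 - (starRingEnd ℂ) η * z) + ((1 - ρ : ℝ) : ℂ) * ((starRingEnd ℂ) η * z) := by
      push_cast
      ring
    have e2 : ‖((1 - ρ : ℝ) : ℂ) * ((starRingEnd ℂ) η * z)‖ ≤ s := by
      rw [norm_mul, norm_mul, norm_real, Real.norm_eq_abs, abs_of_nonneg (by linarith),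
        RCLike.norm_conj, hη, one_mul]
      linarith
    rw [e1]
    refine (norm_add_le _ _).trans ?_
    linarith
  have hlt : ‖(ρ : ℂ) * z‖ < 1 := by
    rw [hn]
    linarith
  have hε2' : ε * (R + 1 + 1) ^ 2 ≤ 1 / R := by
    have : R + 1 + 1 = R + 2 := by ring
    rw [this]
    exact hε2
  have hw := hwin _ hlt (window hη hs (by linarith) hR0 (by linarith) hε hζ hlt hU
    (by rw [hn]; linarith) hε2')
  rw [hn] at hw
  have hWpos : 0 < W ((ρ : ℂ) * z) := hW.pos.trans_le (hW.low _ (mem_ball_zero_iff.2 hlt))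
  have h5 : 1 - (1 - s / R) ^ 2 ≤ 2 * (s / R) := by nlinarith [sq_nonneg (s / R)]
  have h6 : 1 / 2 ≤ 2 * (s / R) * W ((ρ : ℂ) * z) := by
    have := mul_le_mul_of_nonneg_right h5 hWpos.le
    linarith
  have h7 : 1 / 2 * W ((ρ : ℂ) * z) ≤ W z := le_trans (mul_le_mul_of_nonneg_right hρ0 hWpos.le) hm
  have h8 : R ≤ W ((ρ : ℂ) * z) * (4 * s) := by
    have h10 := mul_le_mul_of_nonneg_right h6 hR0.le
    have e : 2 * (s / R) * W ((ρ : ℂ) * z) * R = 2 * s * W ((ρ : ℂ) * z) := by field_simp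
    rw [e] at h10
    linarith
  rw [div_le_iff₀ (by positivity)]
  nlinarith

theorem dens {W : ℂ → ℝ} {w₀ : ℝ} (hW : Rad W w₀) {f : ℂ → ℂ} (hf : InW W f)
    {ξ : ℂ} (hξ : ‖ξ‖ = 1) (hcr : Win W ξ) {δ ε ρ₀ : ℝ} (M : ℝ) (hδ : 0 < δ) (hε : 0 < ε) (hρ₀ : ρ₀ < 1) :
    ∃ f' g' : ℂ → ℂ, InW W f' ∧ g' 0 = 0 ∧
      (∀ z ∈ Metric.ball (0 : ℂ) 1, HasDerivAt g' (exp (f' z)) z) ∧
      (∀ z : ℂ, ‖z‖ ≤ ρ₀ → ‖f' z - f z‖ ≤ ε) ∧ NQ g' ξ δ M := by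
  obtain ⟨a, ha, ha', v₁, v₂, v₃, h1, h2, h3, h12, hM⟩ := pts M
  obtain ⟨κ, hκ, hnorm⟩ := norm_ph ha ha'
  obtain ⟨B, hB, hphB⟩ := ph_bdd ha ha'
  obtain ⟨f₁, t, N, ht, hN, h10, hf₁N, hf₁W, hclose⟩ := approx_W hW hf hρ₀ (half_pos hε)
  have hfold := Pool.Agent.H50.IT.foldE (e := 0) ha ha' (by simp)
  have hφ : ∀ v : ℂ, 0 ≤ v.re → 200 ≤ ‖v‖ → ‖ph a v‖ ≤ 200 / ‖v‖ ^ 2 := hfold.φ_far
  have hβ : ∀ v : ℂ, 0 ≤ v.re → 200 ≤ ‖v‖ → ‖bt a v‖ ≤ 200 / ‖v‖ := hfold.β_far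
  obtain ⟨c₀, hc₀, d₀, hd₀, hlow⟩ := hcr.near
  set e : ℝ := (‖GG a v₁ - GG a v₂‖ - M * ‖GG a v₁ - GG a v₃‖) / (2 * (|M| + 1)) with he
  have hM1 : 0 < |M| + 1 := by positivity
  have he0 : 0 < e := by
    rw [he]
    exact div_pos (by linarith) (by positivity)
  have heM : (|M| + 1) * e < ‖GG a v₁ - GG a v₂‖ - M * ‖GG a v₁ - GG a v₃‖ := by
    have e1 : (|M| + 1) * e =
        (‖GG a v₁ - GG a v₂‖ - M * ‖GG a v₁ - GG a v₃‖) / 2 := by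
      rw [he]
      field_simp
    rw [e1]
    linarith
  obtain ⟨s₁, hs₁, hlim₁⟩ := lim ha ha' hf₁N h1 h3 he0
  obtain ⟨s₂, hs₂, hlim₂⟩ := lim ha ha' hf₁N h1 h2 he0
  have hρ : 0 < 1 - ρ₀ := by linarith
  have hW0 := hW.pos
  obtain ⟨R, hR200, hRt, hRB⟩ : ∃ R : ℝ, 200 ≤ R ∧ 400 ≤ R * (t * c₀) ∧ 8 * (B + 1) ≤ R := by
    refine ⟨max 200 (max (400 / (t * c₀)) (8 * (B + 1))), le_max_left _ _, ?_, ?_⟩
    · have h4 : 400 / (t * c₀) ≤ max 200 (max (400 / (t * c₀)) (8 * (B + 1))) :=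
        (le_max_left _ _).trans (le_max_right _ _)
      rwa [div_le_iff₀ (by positivity)] at h4
    · exact (le_max_right _ _).trans (le_max_right _ _)
  have hR0 : 0 < R := by linarith
  obtain ⟨ε', hε', hε1, hεκ, hεR⟩ : ∃ ε' : ℝ, 0 < ε' ∧ ε' ≤ 1 / 2 ∧ ε' ≤ κ / 2 ∧
      ε' * (R + 2) ^ 2 ≤ 1 / R := by
    refine ⟨min (1 / 2) (min (κ / 2) (1 / R / (R + 2) ^ 2)),
      lt_min (by norm_num) (lt_min (by positivity) (by positivity)), min_le_left _ _,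
      (min_le_right _ _).trans (min_le_left _ _), ?_⟩
    have h4 : min (1 / 2) (min (κ / 2) (1 / R / (R + 2) ^ 2)) ≤ 1 / R / (R + 2) ^ 2 :=
      (min_le_right _ _).trans (min_le_right _ _)
    rwa [le_div_iff₀ (by positivity)] at h4
  have ev : ∀ c : ℝ, 0 < c → ∀ᶠ s in 𝓝[>] (0 : ℝ), s < c := fun c hc =>
    mem_nhdsWithin_of_mem_nhds (Iio_mem_nhds hc)
  have hall : ∀ᶠ s in 𝓝[>] (0 : ℝ), 0 < s ∧ s < s₁ ∧ s < s₂ ∧ s < d₀ / 2 / 200 ∧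
      s < t * w₀ * (d₀ / 2) ^ 2 / 200 ∧ s < (1 - ρ₀) / 200 ∧ s < ε / 4 * (1 - ρ₀) / 200 ∧
      s < 1 / 200 ∧
      s < ε / 4 / 200 ∧ s < δ / 2 / (‖v₁‖ + 1) ∧ s < δ / 2 / (‖v₂‖ + 1) ∧ s < δ / 2 / (‖v₃‖ + 1) ∧
      s < 2 * v₁.re / (‖v₁‖ ^ 2 + 1) ∧ s < 2 * v₂.re / (‖v₂‖ ^ 2 + 1) ∧
      s < 2 * v₃.re / (‖v₃‖ ^ 2 + 1) ∧ s < κ / (4 * N * R + 1) ∧ s < 1 / (N + 1) ∧
      s < δ / 2 := by
    refine (eventually_mem_nhdsWithin (a := (0 : ℝ)) (s := Ioi 0)).and ?_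
    refine (ev _ hs₁).and <| (ev _ hs₂).and <| (ev _ (by positivity)).and <|
      (ev _ (by positivity)).and <| (ev _ (by positivity)).and <| (ev _ (by positivity)).and <|
      (ev _ (by positivity)).and <| (ev _ (by positivity)).and <| (ev _ (by positivity)).and <|
      (ev _ (by positivity)).and <| (ev _ (by positivity)).and <| (ev _ (by positivity)).and <|
      (ev _ (by positivity)).and <| (ev _ (by positivity)).and <| (ev _ (by positivity)).and <|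
      (ev _ (by positivity)).and (ev _ (by positivity))
  obtain ⟨D, hD, c1, c2, c3, c4, c5, c6, c7, c8, c9, c10, c11, c12, c13, c14, c15, c16, c17⟩ :=
    hall.exists
  obtain ⟨ζ, hζ1, hζD, hwin⟩ := hcr.pt hε' (half_pos hD)
  obtain ⟨s, hsζ⟩ : ∃ s : ℝ, s = 1 - ‖ζ‖ := ⟨_, rfl⟩
  have hs : 0 < s := by linarith only [hsζ, hζ1]
  have hsD2 : s < D / 2 := by
    have h4 := norm_sub_norm_le ξ ζ
    rw [hξ] at h4
    linarith only [h4, hsζ, hζD]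
  have hsD : s < D := by linarith only [hsD2, hs]
  have hζ0 : 0 < ‖ζ‖ := by linarith
  obtain ⟨η, hηζ⟩ : ∃ η : ℂ, η = ζ / (‖ζ‖ : ℂ) := ⟨_, rfl⟩
  have hη : ‖η‖ = 1 := by
    rw [hηζ, norm_div, norm_real, norm_norm, div_self hζ0.ne']
  have hζη : ζ = ((1 - s : ℝ) : ℂ) * η := by
    have h4 : (1 - s : ℝ) = ‖ζ‖ := by linarith
    have h5 : (‖ζ‖ : ℂ) ≠ 0 := by exact_mod_cast hζ0.ne'
    rw [h4, hηζ, mul_div_cancel₀ _ h5]
  have hξη : ‖ξ - η‖ < D := by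
    have h4 : ζ - η = -((s : ℂ) * η) := by
      rw [hζη]
      push_cast
      ring
    have h5 : ‖ζ - η‖ = s := by
      rw [h4, norm_neg, norm_mul, hη, mul_one, norm_real, Real.norm_eq_abs, abs_of_pos hs]
    have h6 := norm_sub_le_norm_sub_add_norm_sub ξ ζ η
    linarith
  replace c1 := hsD.trans c1
  replace c2 := hsD.trans c2
  have c3' := hsD.trans c3
  replace c4 := hsD.trans c4
  replace c5 := hsD.trans c5
  replace c6 := hsD.trans c6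
  replace c7 := hsD.trans c7
  replace c8 := hsD.trans c8
  replace c9 := hsD.trans c9
  replace c10 := hsD.trans c10
  replace c11 := hsD.trans c11
  replace c12 := hsD.trans c12
  replace c13 := hsD.trans c13
  replace c14 := hsD.trans c14
  replace c15 := hsD.trans c15
  replace c16 := hsD.trans c16
  have hsC : (s : ℂ) ≠ 0 := by exact_mod_cast hs.ne'
  set U : ℂ → ℂ := fun z => 1 - (starRingEnd ℂ) η * z with hU
  set f' : ℂ → ℂ := fun z => f₁ z + (bt a (U z / (s : ℂ)) - bt a (1 / (s : ℂ))) with hf'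
  have hUre : ∀ z : ℂ, ‖z‖ < 1 → 0 < (U z).re := by
    intro z hz
    have g1 := U_re (z := z) hη
    have g2 : 0 < 1 - ‖z‖ ^ 2 := by nlinarith only [norm_nonneg z, hz]
    simp only [hU]
    linarith only [g1, g2]
  have hUs : ∀ z : ℂ, ‖z‖ < 1 → 0 ≤ (U z / (s : ℂ)).re := by
    intro z hz
    rw [div_ofReal_re]
    exact div_nonneg (hUre z hz).le hs.le
  have hder : ∀ z : ℂ, ‖z‖ < 1 → HasDerivAt f'
      (deriv f₁ z + ph a (U z / (s : ℂ)) * (-(starRingEnd ℂ) η / (s : ℂ))) z := by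
    intro z hz
    have g1 := (hf₁N z hz.le).1.hasDerivAt
    have g2 : HasDerivAt (fun z => U z / (s : ℂ)) (-(starRingEnd ℂ) η / (s : ℂ)) z := by
      have g3 : HasDerivAt (fun z : ℂ => 1 - (starRingEnd ℂ) η * z) (-(starRingEnd ℂ) η) z := by
        simpa using ((hasDerivAt_id z).const_mul ((starRingEnd ℂ) η)).const_sub 1
      exact g3.div_const _
    have g4 := (hasDerivAt_bt ha ha' (hUs z hz)).comp z g2
    exact g1.add (g4.sub_const _)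
  have hphn : ∀ z : ℂ, ‖ph a (U z / (s : ℂ)) * (-(starRingEnd ℂ) η / (s : ℂ))‖ =
      ‖ph a (U z / (s : ℂ))‖ / s := by
    intro z
    rw [norm_mul, norm_div, norm_neg, RCLike.norm_conj, hη, norm_real, Real.norm_eq_abs,
      abs_of_pos hs]
    ring
  have hUn : ∀ z : ℂ, ‖U z / (s : ℂ)‖ = ‖U z‖ / s := by
    intro z
    rw [norm_div, norm_real, Real.norm_eq_abs, abs_of_pos hs]
  have htot : ∀ z : ℂ, ‖z‖ < 1 → ‖deriv f' z‖ ≤
      ‖deriv f₁ z‖ + ‖ph a (U z / (s : ℂ))‖ / s := by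
    intro z hz
    rw [(hder z hz).deriv, ← hphn z]
    exact norm_add_le _ _
  have hwa : ∀ z : ℂ, ‖z‖ < 1 → ‖U z‖ ≤ R * s → s / R ≤ 1 - ‖z‖ → ‖deriv f' z‖ ≤ W z := by
    intro z hz hzR hzd
    have g2 : 0 < 1 - ‖z‖ ^ 2 := by nlinarith only [norm_nonneg z, hz]
    have g3 := U_re (z := z) hη
    have g4 := U_low (z := z) hη
    have g45 : 1 - ‖z‖ ≤ R * s := g4.trans hzR
    have g5 : 1 - ‖z‖ ^ 2 ≤ 2 * (R * s) := by nlinarith only [g45, sq_nonneg (1 - ‖z‖)]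
    have g6 : (1 - ‖z‖ ^ 2) * ‖deriv f₁ z‖ ≤ κ / 2 := by
      have g7 : 4 * N * R * s ≤ κ := by
        rw [lt_div_iff₀ (by positivity)] at c15
        nlinarith only [c15, hs]
      calc (1 - ‖z‖ ^ 2) * ‖deriv f₁ z‖ ≤ (2 * (R * s)) * N :=
            mul_le_mul g5 (hf₁N z hz.le).2 (norm_nonneg _) (by positivity)
        _ = 4 * N * R * s / 2 := by ring
        _ ≤ κ / 2 := by linarith only [g7]
    have g7 : (1 - ‖z‖ ^ 2) * (‖ph a (U z / (s : ℂ))‖ / s) ≤ 1 - κ := by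
      calc (1 - ‖z‖ ^ 2) * (‖ph a (U z / (s : ℂ))‖ / s)
          ≤ (2 * (U z).re) * (‖ph a (U z / (s : ℂ))‖ / s) := by
            gcongr
        _ = 2 * (U z / (s : ℂ)).re * ‖ph a (U z / (s : ℂ))‖ := by
            rw [div_ofReal_re]; ring
        _ ≤ 1 - κ := hnorm _ (hUs z hz)
    have g75 : ‖U z‖ ≤ (R + 1) * s := by linarith only [hzR, hs]
    have g8 := hwin z hz (window (R := R) (R' := R + 1) hη hs (by linarith only [c7]) hR0 (by linarith only [hR0]) hε'.le hζη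
      hz g75 hzd (by
        have : R + 1 + 1 = R + 2 := by ring
        rw [this]
        exact hεR))
    have g9 := mul_le_mul_of_nonneg_left (htot z hz) g2.le
    rw [mul_add] at g9
    exact le_of_mul_le_mul_left (by linarith only [g6, g7, g8, g9, hεκ]) g2
  have hwb : ∀ z : ℂ, ‖z‖ < 1 → ‖U z‖ ≤ R * s → 1 - ‖z‖ < s / R → ‖deriv f' z‖ ≤ W z := by
    intro z hz hzR hzd
    have g1 := deep hW hη hs (by linarith only [c7]) (by linarith only [hR200]) hε'.le hε1 hζη hεR hwin hz hzR hzd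
    refine ((htot z hz).trans ?_).trans g1
    have g2 := (hf₁N z hz.le).2
    have g3 := hphB _ (hUs z hz)
    have g4 : N * s ≤ 1 := by
      rw [lt_div_iff₀ (by positivity)] at c16
      nlinarith only [c16, hs]
    have g5 : N + B / s ≤ R / (8 * s) := by
      rw [le_div_iff₀ (by positivity)]
      have : (N + B / s) * (8 * s) = 8 * (N * s) + 8 * B := by field_simp
      rw [this]
      linarith only [g4, hRB]
    have g6 : ‖ph a (U z / (s : ℂ))‖ / s ≤ B / s := by gcongr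
    linarith only [g2, g5, g6]
  have hwc : ∀ z : ℂ, ‖z‖ < 1 → R * s < ‖U z‖ → ‖deriv f' z‖ ≤ W z := by
    intro z hz hzR
    have hU0 : 0 < ‖U z‖ := lt_trans (by positivity) hzR
    have g2 : 0 < 1 - ‖z‖ ^ 2 := by nlinarith only [norm_nonneg z, hz]
    have g4 : 200 ≤ ‖U z / (s : ℂ)‖ := by
      rw [hUn, le_div_iff₀ hs]
      nlinarith only [hzR, hs, hR200]
    have g5 := hφ _ (hUs z hz) g4
    rw [hUn] at g5
    have g6 : ‖ph a (U z / (s : ℂ))‖ / s ≤ t * W z := by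
      have g65 : ‖ph a (U z / (s : ℂ))‖ / s ≤ 200 * s / ‖U z‖ ^ 2 := by
        calc ‖ph a (U z / (s : ℂ))‖ / s ≤ 200 / (‖U z‖ / s) ^ 2 / s := by gcongr
          _ = 200 * s / ‖U z‖ ^ 2 := by field_simp
      refine g65.trans ?_
      rcases le_or_gt ‖U z‖ (d₀ / 2) with hd | hd
      · have g7 : c₀ ≤ (1 - ‖z‖ ^ 2) * W z := by
          refine hlow z hz ?_
          have g8 : ‖η - z‖ ≤ d₀ / 2 := by rw [← U_norm hη]; exact hd
          have g9 := norm_sub_le_norm_sub_add_norm_sub ξ η z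
          linarith only [g8, g9, hξη, c3, hd₀]
        have g8 := U_low (z := z) hη
        have g9 : 1 - ‖z‖ ^ 2 ≤ 2 * ‖U z‖ := by nlinarith only [g8, sq_nonneg (1 - ‖z‖)]
        have hWz : 0 < W z := hW.pos.trans_le (hW.low z (mem_ball_zero_iff.2 hz))
        have g10 : c₀ ≤ 2 * ‖U z‖ * W z := g7.trans (mul_le_mul_of_nonneg_right g9 hWz.le)
        rw [div_le_iff₀ (by positivity)]
        have g11 : 400 * s ≤ t * c₀ * ‖U z‖ := by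
          have g12 : 400 * s ≤ R * (t * c₀) * s := by gcongr
          have g13 : R * s * (t * c₀) ≤ ‖U z‖ * (t * c₀) := by gcongr
          linarith only [g12, g13]
        have g14 : t * ‖U z‖ * c₀ ≤ t * ‖U z‖ * (2 * ‖U z‖ * W z) := by gcongr
        nlinarith only [g11, g14]
      · have g7 : w₀ ≤ W z := hW.low z (mem_ball_zero_iff.2 hz)
        calc 200 * s / ‖U z‖ ^ 2 ≤ 200 * s / (d₀ / 2) ^ 2 := by gcongr
          _ ≤ t * w₀ := by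
            rw [div_le_iff₀ (by positivity)]
            linarith only [c4]
          _ ≤ t * W z := by gcongr
    have g8 := htot z hz
    have g9 := hf₁W z hz
    nlinarith only [g6, g8, g9]
  have hK : InW W f' := by
    refine ⟨fun z hz => ?_, ?_, fun z hz => ?_⟩
    · rw [mem_ball_zero_iff] at hz
      exact (hder z hz).differentiableAt.differentiableWithinAt
    · simp only [hf', hU, h10, mul_zero, sub_zero, sub_self, add_zero]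
    · rw [mem_ball_zero_iff] at hz
      rcases le_or_gt ‖U z‖ (R * s) with hzd | hzd
      · rcases le_or_gt (s / R) (1 - ‖z‖) with hz2 | hz2
        · exact hwa z hz hzd hz2
        · exact hwb z hz hzd hz2
      · exact hwc z hz hzd
  obtain ⟨g', hg0, hg'⟩ := exists_prim0 hK.diff
  refine ⟨f', g', hK, hg0, hg', fun z hz => ?_, ?_⟩
  · have hz1 : ‖z‖ < 1 := lt_of_le_of_lt hz hρ₀
    have g1 := hclose z hz
    have g2 : 1 - ρ₀ ≤ ‖U z‖ := by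
      have := U_low (z := z) hη
      simp only [hU]
      linarith
    have hU0 : 0 < ‖U z‖ := hρ.trans_le g2
    have g3 : 200 ≤ ‖U z / (s : ℂ)‖ := by
      rw [hUn, le_div_iff₀ hs]
      linarith
    have g4 : ‖bt a (U z / (s : ℂ))‖ ≤ ε / 4 := by
      refine (hβ _ (hUs z hz1) g3).trans ?_
      rw [hUn]
      calc 200 / (‖U z‖ / s) = 200 * s / ‖U z‖ := by field_simp
        _ ≤ 200 * s / (1 - ρ₀) := by gcongr
        _ ≤ ε / 4 := by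
          rw [div_le_iff₀ hρ]
          linarith
    have g5 : ‖(1 : ℂ) / (s : ℂ)‖ = 1 / s := by
      rw [norm_div, norm_one, norm_real, Real.norm_eq_abs, abs_of_pos hs]
    have g6 : ‖bt a (1 / (s : ℂ))‖ ≤ ε / 4 := by
      refine (hβ _ ?_ ?_).trans ?_
      · rw [div_ofReal_re, one_re]
        positivity
      · rw [g5, le_div_iff₀ hs]
        linarith
      · rw [g5]
        calc 200 / (1 / s) = 200 * s := by field_simp
          _ ≤ ε / 4 := by linarith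
    have g7 : f' z - f z = (f₁ z - f z) + (bt a (U z / (s : ℂ)) - bt a (1 / (s : ℂ))) := by
      simp only [hf']
      ring
    rw [g7]
    have g8 := norm_add_le (f₁ z - f z) (bt a (U z / (s : ℂ)) - bt a (1 / (s : ℂ)))
    have g9 := norm_sub_le (bt a (U z / (s : ℂ))) (bt a (1 / (s : ℂ)))
    linarith
  · have hdg : ∀ z ∈ Metric.ball (0 : ℂ) 1, HasDerivAt g'
        (exp (f₁ z + (bt a ((1 - (starRingEnd ℂ) η * z) / (s : ℂ)) - bt a (1 / (s : ℂ))))) z :=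
      fun z hz => hg' z hz
    have k1 := hlim₁ η hη s hs c1.le g' hdg
    have k2 := hlim₂ η hη s hs c2.le g' hdg
    set A : ℂ := -η * (s : ℂ) * exp (f₁ η - bt a (1 / (s : ℂ))) with hA
    have hA0 : A ≠ 0 := by
      rw [hA]
      refine mul_ne_zero (mul_ne_zero (neg_ne_zero.2 ?_) hsC) (exp_ne_zero _)
      intro h
      rw [h, norm_zero] at hη
      norm_num at hη
    have hmem : ∀ v : ℂ, 0 < v.re → s < 2 * v.re / (‖v‖ ^ 2 + 1) →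
        η * (1 - (s : ℂ) * v) ∈ Metric.ball (0 : ℂ) 1 := by
      intro v hv hv2
      refine mem_disc hη hs ?_
      rw [lt_div_iff₀ (by positivity)] at hv2
      nlinarith only [hv2, hs]
    have hsub : ∀ v w : ℂ, ‖η * (1 - (s : ℂ) * v) - η * (1 - (s : ℂ) * w)‖ = s * ‖v - w‖ := by
      intro v w
      have : η * (1 - (s : ℂ) * v) - η * (1 - (s : ℂ) * w) = -(η * ((s : ℂ) * (v - w))) := by ring
      rw [this, norm_neg, norm_mul, hη, one_mul, norm_mul, norm_real, Real.norm_eq_abs,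
        abs_of_pos hs]
    have hdist : ∀ v : ℂ, s < δ / 2 / (‖v‖ + 1) → ‖η * (1 - (s : ℂ) * v) - ξ‖ < δ := by
      intro v hv
      have k3 : ‖η * (1 - (s : ℂ) * v) - η‖ = s * ‖v‖ := by
        have : η * (1 - (s : ℂ) * v) - η = -(η * ((s : ℂ) * v)) := by ring
        rw [this, norm_neg, norm_mul, hη, one_mul, norm_mul, norm_real, Real.norm_eq_abs,
          abs_of_pos hs]
      have k4 := norm_sub_le_norm_sub_add_norm_sub (η * (1 - (s : ℂ) * v)) η ξ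
      rw [norm_sub_rev η ξ] at k4
      rw [lt_div_iff₀ (by positivity)] at hv
      nlinarith only [hv, k3, k4, hξη, hs, c17, norm_nonneg v]
    refine ⟨_, hmem v₁ h1 c12, _, hmem v₂ h2 c13, _, hmem v₃ h3 c14, hdist v₁ c9, hdist v₂ c10,
      hdist v₃ c11, ?_, ?_⟩
    · rw [hsub, hsub]
      exact mul_le_mul_of_nonneg_left h12 hs.le
    · set X := (g' (η * (1 - (s : ℂ) * v₁)) - g' (η * (1 - (s : ℂ) * v₃))) / A with hX
      set Y := (g' (η * (1 - (s : ℂ) * v₁)) - g' (η * (1 - (s : ℂ) * v₂))) / A with hY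
      have e1 : g' (η * (1 - (s : ℂ) * v₁)) - g' (η * (1 - (s : ℂ) * v₃)) = X * A := by
        rw [hX, div_mul_cancel₀ _ hA0]
      have e2 : g' (η * (1 - (s : ℂ) * v₁)) - g' (η * (1 - (s : ℂ) * v₂)) = Y * A := by
        rw [hY, div_mul_cancel₀ _ hA0]
      rw [e1, e2, norm_mul X A, norm_mul Y A, ← mul_assoc]
      refine mul_lt_mul_of_pos_right ?_ (norm_pos_iff.2 hA0)
      have e3 : |‖X‖ - ‖GG a v₁ - GG a v₃‖| ≤ e := (abs_norm_sub_norm_le _ _).trans k1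
      have e4 : |‖Y‖ - ‖GG a v₁ - GG a v₂‖| ≤ e := (abs_norm_sub_norm_le _ _).trans k2
      have e5 : M * (‖X‖ - ‖GG a v₁ - GG a v₃‖) ≤ |M| * e := by
        calc M * (‖X‖ - ‖GG a v₁ - GG a v₃‖) ≤ |M * (‖X‖ - ‖GG a v₁ - GG a v₃‖)| := le_abs_self _
          _ = |M| * |‖X‖ - ‖GG a v₁ - GG a v₃‖| := abs_mul _ _
          _ ≤ |M| * e := by gcongr
      have e6 := (abs_le.1 e4).1
      nlinarith only [e5, e6, e3, heM]

end Pool.Agent.H50.JA
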